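import Pool.Agent.Helper34.SQ.GoalsM

/-!
Project SQ, packet ZGM: the graded module `Z(μ)`.
-/

set_option autoImplicit false
set_option linter.unusedSectionVars false

namespace Pool.Agent.Helper45.SQ

noncomputable section

open Finset Matrix Pool.Agent.Helper19.SQ Pool.Agent.Helper34.SQ

variable {N l : ℕ} {q : ℂ}

theorem tw_add (N : ℕ) (s : ℕ → ℂˣ) (μ ν : Fin (N + 1) → ℤ) : tw N s (μ + ν) = tw N s μ * tw N s ν := by
  unfold tw
  rw [← prod_mul_distrib]
  exact prod_congr rfl fun j _ => zpow_add₀ (s j).ne_zero _ _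

theorem tw_zero (N : ℕ) (s : ℕ → ℂˣ) : tw N s 0 = 1 := by
  simp [tw]

/-- homogeneous elements of weight `w` -/
structure HomW (hl : l ≠ 0) (s : ℕ → ℂˣ) (x : A N l q) (w : Fin (N + 1) → ℤ) : Prop where
  t : tor N l q hl s x = tw N s w • x
  k : ∀ j : Fin (N + 1), gK N l q j * x = q ^ w j • (x * gK N l q j)

theorem HomW.mul {hl : l ≠ 0} {s : ℕ → ℂˣ} {x y : A N l q} {w w' : Fin (N + 1) → ℤ} (hq : q ≠ 0)
    (hx : HomW hl s x w) (hy : HomW hl s y w') : HomW hl s (x * y) (w + w') where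
  t := by rw [map_mul, hx.t, hy.t, smul_mul_smul_comm, tw_add]
  k j := by
    rw [← mul_assoc, hx.k, smul_mul_assoc, mul_assoc, hy.k, mul_smul_comm, smul_smul, Pi.add_apply,
      zpow_add₀ hq, mul_assoc]

theorem HomW.one {hl : l ≠ 0} {s : ℕ → ℂˣ} : HomW hl s (1 : A N l q) 0 where
  t := by rw [map_one, tw_zero, one_smul]
  k j := by simp

theorem HomW.pow {hl : l ≠ 0} {s : ℕ → ℂˣ} {x : A N l q} {w : Fin (N + 1) → ℤ} (hq : q ≠ 0)
    (hx : HomW hl s x w) (n : ℕ) : HomW hl s (x ^ n) ((n : ℤ) • w) := by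
  induction n with
  | zero => simpa using HomW.one
  | succ n ih =>
    have h2 : ((n + 1 : ℕ) : ℤ) • w = (n : ℤ) • w + w := by
      push_cast
      rw [add_smul, one_smul]
    rw [pow_succ, h2]
    exact ih.mul hq hx

theorem HomW.sub {hl : l ≠ 0} {s : ℕ → ℂˣ} {x y : A N l q} {w : Fin (N + 1) → ℤ}
    (hx : HomW hl s x w) (hy : HomW hl s y w) : HomW hl s (x - y) w where
  t := by rw [map_sub, hx.t, hy.t, smul_sub]
  k j := by rw [mul_sub, hx.k, hy.k, sub_mul, smul_sub]

theorem HomW.smul {hl : l ≠ 0} {s : ℕ → ℂˣ} {x : A N l q} {w : Fin (N + 1) → ℤ}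
    (hx : HomW hl s x w) (c : ℂ) : HomW hl s (c • x) w where
  t := by rw [map_smul, hx.t, smul_comm]
  k j := by rw [mul_smul_comm, hx.k, smul_mul_assoc, smul_comm]

theorem HomW.list {hl : l ≠ 0} {s : ℕ → ℂˣ} (hq : q ≠ 0) (f : ℕ → A N l q) (w : ℕ → Fin (N + 1) → ℤ)
    (n : ℕ) (h : ∀ i, i < n → HomW hl s (f i) (w i)) :
    HomW hl s ((List.range n).map f).prod (∑ i ∈ range n, w i) := by
  induction n with
  | zero => simpa using HomW.one
  | succ n ih =>
    rw [List.range_succ, List.map_append, List.prod_append, sum_range_succ]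
    simp only [List.map_cons, List.map_nil, List.prod_cons, List.prod_nil, mul_one]
    exact (ih fun i hi => h i (by omega)).mul hq (h n (by omega))

/-- the weight of `F_{ij}` -/
def ew (N i j : ℕ) : Fin (N + 1) → ℤ := fun p =>
  (if (p : ℕ) = j then 1 else 0) - (if (p : ℕ) = i then 1 else 0)

theorem ew_add (N i j k : ℕ) : ew N i j + ew N j k = ew N i k := by
  funext p; simp only [ew, Pi.add_apply]; ring

theorem tw_single (N : ℕ) (s : ℕ → ℂˣ) (i : ℕ) (hi : i ≤ N) (c : ℤ) :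
    ∏ j : Fin (N + 1), (s j : ℂ) ^ (if (j : ℕ) = i then c else 0) = (s i : ℂ) ^ c := by
  rw [prod_eq_single (⟨i, by omega⟩ : Fin (N + 1))]
  · simp
  · intro b _ hb
    have : (b : ℕ) ≠ i := fun h => hb (Fin.ext h)
    simp [this]
  · intro h; exact absurd (mem_univ _) h

theorem tw_ew (N : ℕ) (s : ℕ → ℂˣ) (i j : ℕ) (hi : i ≤ N) (hj : j ≤ N) :
    tw N s (ew N i j) = (s i : ℂ)⁻¹ * (s j : ℂ) := by
  have h1 : ew N i j = (fun p : Fin (N + 1) => if (p : ℕ) = i then (-1 : ℤ) else 0)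
      + fun p : Fin (N + 1) => if (p : ℕ) = j then (1 : ℤ) else 0 := by
    funext p; simp only [ew, Pi.add_apply]; split_ifs <;> ring
  rw [h1, tw_add]
  have h2 := tw_single N s i hi (-1)
  have h3 := tw_single N s j hj 1
  unfold tw
  rw [h2, h3, _root_.zpow_neg_one, _root_.zpow_one]

theorem homF (hl : l ≠ 0) (s : ℕ → ℂˣ) (i : ℕ) (hi : i < N) :
    HomW hl s (gF N l q i) (ew N i (i + 1)) where
  t := by rw [tor_F, tw_ew N s i (i + 1) (by omega) (by omega)]
  k j := by
    rw [(glA N l q).KF]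
    congr 2
    simp only [Pool.Agent.Helper19.SQ.pr, ew]
    split_ifs <;> omega

theorem homRv (hl : l ≠ 0) (s : ℕ → ℂˣ) (hq : q ≠ 0) (d : ℕ) : ∀ i, i + d + 1 ≤ N →
    HomW hl s (rvA q (gF N l q) d i) (ew N i (i + d + 1)) := by
  induction d with
  | zero => exact fun i hi => homF hl s i (by omega)
  | succ d ih =>
    intro i hi
    have h1 := homF (q := q) hl s i (by omega : i < N)
    have h2 := ih (i + 1) (by omega)
    have e : i + 1 + d + 1 = i + (d + 1) + 1 := by ring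
    rw [e] at h2
    have h3 := h1.mul hq h2
    have h4 := h2.mul hq h1
    rw [add_comm (ew N (i + 1) _)] at h4
    rw [ew_add] at h3 h4
    exact h3.sub (h4.smul q⁻¹)

theorem homMon (hl : l ≠ 0) (s : ℕ → ℂˣ) (hq : q ≠ 0) (b : ℕ → ℕ → ℕ) :
    HomW hl s (mon N q (gF N l q) b)
      (∑ i ∈ range N, ∑ d ∈ range (N - i), ((b i (i + 1 + d) : ℕ) : ℤ) • ew N i (i + 1 + d)) := by
  unfold mon
  refine HomW.list hq _ _ _ fun i hi => ?_
  unfold rowM
  refine HomW.list hq _ _ _ fun d hd => ?_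
  refine HomW.pow hq ?_ _
  have e : rv q (gF N l q) i (i + 1 + d) = rvA q (gF N l q) d i := by
    unfold rv
    congr 1
    omega
  rw [e]
  have := homRv (N := N) (q := q) (l := l) hl s hq d i (by omega)
  have e2 : i + d + 1 = i + 1 + d := by omega
  rw [e2] at this
  exact this

theorem wt_eq (b : ℕ → ℕ → ℕ) (hb : IsEx N l b) :
    (∑ i ∈ range N, ∑ d ∈ range (N - i), ((b i (i + 1 + d) : ℕ) : ℤ) • ew N i (i + 1 + d))
      = - wtE N b := by
  have h0 : ∀ i j, ¬ (i < j ∧ j ≤ N) → ((b i j : ℕ) : ℤ) • ew N i j = 0 := by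
    intro i j h
    rw [(hb i j).2 h]; simp
  have h1 : ∀ i ∈ range N, ∑ d ∈ range (N - i), ((b i (i + 1 + d) : ℕ) : ℤ) • ew N i (i + 1 + d)
      = ∑ j ∈ range (N + 1), ((b i j : ℕ) : ℤ) • ew N i j := by
    intro i hi
    rw [mem_range] at hi
    have e : range (N + 1) = range ((i + 1) + (N - i)) := by congr 1; omega
    rw [e, sum_range_add, sum_eq_zero (s := range (i + 1)), zero_add]
    intro j hj
    rw [mem_range] at hj
    exact h0 i j (by omega)
  rw [sum_congr rfl h1]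
  have h2 : ∑ i ∈ range (N + 1), ∑ j ∈ range (N + 1), ((b i j : ℕ) : ℤ) • ew N i j
      = ∑ i ∈ range N, ∑ j ∈ range (N + 1), ((b i j : ℕ) : ℤ) • ew N i j := by
    rw [sum_range_succ, sum_eq_zero (s := range (N + 1)) (f := fun j => ((b N j : ℕ) : ℤ) • ew N N j),
      add_zero]
    intro j _
    exact h0 N j (by omega)
  rw [← h2]
  funext p
  have hp := p.2
  simp only [Finset.sum_apply, Pi.smul_apply, Pi.neg_apply, wtE, ew, smul_eq_mul, mul_sub, mul_ite,
    mul_one, mul_zero, sum_sub_distrib]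
  have e1 : ∀ i ∈ range (N + 1), (∑ j ∈ range (N + 1), if (p : ℕ) = j then ((b i j : ℕ) : ℤ) else 0)
      = ((b i p : ℕ) : ℤ) := by
    intro i _
    rw [sum_ite_eq]
    simp [hp]
  rw [sum_congr rfl e1]
  have e2 : (∑ i ∈ range (N + 1), ∑ j ∈ range (N + 1), if (p : ℕ) = i then ((b i j : ℕ) : ℤ) else 0)
      = ∑ j ∈ range (N + 1), ((b p j : ℕ) : ℤ) := by
    rw [sum_comm]
    refine sum_congr rfl fun j _ => ?_
    rw [sum_ite_eq]
    simp [hp]
  rw [e2]
  ring

theorem qz_rd [NeZero l] (hq : q ≠ 0) (hql : q ^ l = 1) (c : ℤ) :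
    qz q ((c : ℤ) : ZMod l) = q ^ c := by
  unfold qz
  have h1 : (((c : ZMod l).val : ℕ) : ℤ) = c % (l : ℤ) := ZMod.val_intCast c
  rw [← zpow_natCast, h1]
  have h2 : q ^ (l : ℤ) = 1 := by rw [zpow_natCast]; exact hql
  conv_rhs => rw [← Int.emod_add_mul_ediv c (l : ℤ), zpow_add₀ hq, _root_.zpow_mul, h2, _root_.one_zpow, mul_one]

section
variable [NeZero l] (hl : l ≠ 0) (s : ℕ → ℂˣ) (lam : Fin (N + 1) → ZMod l)

theorem Jl_stable (x : A N l q) (hx : x ∈ Jl q lam) : tor N l q hl s x ∈ Jl q lam := by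
  unfold Jl at hx
  induction hx using Submodule.span_induction with
  | mem x hx =>
    rcases hx with ⟨i, rfl⟩ | ⟨j, rfl⟩
    · rw [tor_E, ← algebraMap_smul (A N l q)]
      exact Submodule.smul_mem _ _ (Submodule.subset_span (Or.inl ⟨i, rfl⟩))
    · simp only []
      rw [map_sub, tor_K, AlgHom.commutes]
      exact Submodule.subset_span (Or.inr ⟨j, rfl⟩)
  | zero => rw [map_zero]; exact Submodule.zero_mem _
  | add x y _ _ hx hy => rw [map_add]; exact Submodule.add_mem _ hx hy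
  | smul a x _ hx => rw [smul_eq_mul, map_mul]; exact Submodule.smul_mem _ _ hx

/-- the quotient map -/
def mkZ (lam : Fin (N + 1) → ZMod l) (a : A N l q) : Zl q lam :=
  (Submodule.Quotient.mk a : A N l q ⧸ Jl q lam)

theorem mk_eq (a : A N l q) : mkZ lam a = a • zgen q lam := by
  have : (a • (Submodule.Quotient.mk (1 : A N l q)) : A N l q ⧸ Jl q lam)
      = Submodule.Quotient.mk (a • (1 : A N l q)) := rfl
  refine Eq.trans ?_ this.symm
  rw [smul_eq_mul, mul_one]
  rfl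

theorem mk_zero (a : A N l q) (h : a ∈ Jl q lam) : mkZ lam a = 0 :=
  (Submodule.Quotient.mk_eq_zero _).mpr h

theorem mk_surj (m : Zl q lam) : ∃ a : A N l q, m = a • zgen q lam := by
  obtain ⟨x, hx⟩ := Submodule.Quotient.mk_surjective (Jl q lam) m
  refine ⟨x, ?_⟩
  rw [← mk_eq]
  exact hx.symm

/-- `a ↦ c φ(a) 1` -/
def th0 (c : ℂ) : A N l q →ₗ[ℂ] Zl q lam where
  toFun a := c • (tor N l q hl s a • zgen q lam)
  map_add' a b := by rw [map_add, add_smul, smul_add]
  map_smul' t a := by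
    rw [map_smul, smul_assoc, RingHom.id_apply, smul_comm]

theorem th0_ker (c : ℂ) (x : A N l q) (hx : x ∈ Jl q lam) : th0 hl s lam c x = 0 := by
  show c • (tor N l q hl s x • zgen q lam) = 0
  rw [← mk_eq, mk_zero lam _ (Jl_stable hl s lam x hx), smul_zero]

theorem exists_theta (c : ℂ) : ∃ Θ : Zl q lam →ₗ[ℂ] Zl q lam,
    ∀ a : A N l q, Θ (a • zgen q lam) = c • (tor N l q hl s a • zgen q lam) := by
  let L : (A N l q ⧸ (Jl q lam).restrictScalars ℂ) →ₗ[ℂ] Zl q lam :=
    ((Jl q lam).restrictScalars ℂ).liftQ (th0 hl s lam c) (fun x hx => by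
      rw [LinearMap.mem_ker]; exact th0_ker hl s lam c x hx)
  let e : (A N l q ⧸ (Jl q lam).restrictScalars ℂ) ≃ₗ[ℂ] (A N l q ⧸ Jl q lam) :=
    Submodule.Quotient.restrictScalarsEquiv ℂ (Jl q lam)
  let T : (A N l q ⧸ Jl q lam) →ₗ[ℂ] Zl q lam := L.comp (e.symm : _ →ₗ[ℂ] _)
  refine ⟨T, fun a => ?_⟩
  rw [← mk_eq lam a]
  have h1 : e.symm (Submodule.Quotient.mk a) = Submodule.Quotient.mk a := by
    rw [LinearEquiv.symm_apply_eq]; rfl
  show L (e.symm (Submodule.Quotient.mk a)) = _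
  rw [h1]
  rfl

theorem gK_zgen (j : Fin (N + 1)) : gK N l q j • zgen q lam = qz q (lam j) • zgen q lam := by
  have h1 : (gK N l q j - algebraMap ℂ (A N l q) (qz q (lam j))) ∈ Jl q lam :=
    Submodule.subset_span (Or.inr ⟨j, rfl⟩)
  have h3 := mk_zero lam _ h1
  rw [mk_eq, sub_smul, algebraMap_smul, sub_eq_zero] at h3
  exact h3

end

theorem t_zgm : Pool.Agent.Helper34.SQ.S_ZGM := by
  intro N l _ q hl s D C hS μ
  have hq : q ≠ 0 := hS.par.prim.ne_zero hl
  have hql : q ^ l = 1 := hS.par.prim.pow_eq_one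
  obtain ⟨Θ, hΘ⟩ := exists_theta (q := q) hl s (rd l μ) (tw N s μ)
  obtain ⟨hli, hsp⟩ := hS.zb (rd l μ)
  set v : EX N l → Zl (N := N) q (rd l μ) := fun a => mon N q (gF N l q) a.1 • zgen q (rd l μ) with hv
  have hW : ∀ a : EX N l, HomW hl s (mon N q (gF N l q) a.1) (-wtE N a.1) := by
    intro a
    rw [← wt_eq a.1 a.2]
    exact homMon hl s hq a.1
  have hev : ∀ a, Θ (v a) = tw N s (μ - wtE N a.1) • v a := by
    intro a
    rw [hv]; simp only []
    rw [hΘ, (hW a).t, sub_eq_add_neg, tw_add, smul_assoc, smul_smul]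
  have hK : ∀ a (j : Fin (N + 1)), gK N l q j • v a = q ^ (μ - wtE N a.1) j • v a := by
    intro a j
    rw [hv]; simp only []
    rw [smul_smul, (hW a).k, smul_assoc, mul_smul, gK_zgen, smul_comm (mon N q (gF N l q) a.1),
      smul_smul]
    congr 1
    have : qz q (rd l μ j) = q ^ μ j := qz_rd hq hql (μ j)
    rw [this, ← zpow_add₀ hq]
    congr 1
    simp only [Pi.sub_apply, Pi.neg_apply]
    ring
  have hfd : FiniteDimensional ℂ (Zl (N := N) q (rd l μ)) :=
    ⟨⟨Set.Finite.toFinset (Set.finite_range v), by rw [Set.Finite.coe_toFinset]; exact hsp⟩⟩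
  -- the basis
  let b : Module.Basis (EX N l) ℂ (Zl (N := N) q (rd l μ)) := Module.Basis.mk hli (by rw [hsp])
  have hb : ∀ a, b a = v a := fun a => by simp [b, Module.Basis.mk_apply, hv]
  -- eigenvectors
  have hcoef : ∀ (ν : Fin (N + 1) → ℤ) (m : Zl (N := N) q (rd l μ)),
      m ∈ Module.End.eigenspace Θ (tw N s ν) → ∀ a, b.repr m a ≠ 0 → μ - wtE N a.1 = ν := by
    intro ν m hm a ha
    rw [Module.End.mem_eigenspace_iff] at hm
    have h1 : b.repr (Θ m) a = tw N s (μ - wtE N a.1) * b.repr m a := by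
      conv_lhs => rw [← b.sum_repr m]
      rw [map_sum, map_sum, Finsupp.finsetSum_apply, sum_eq_single a]
      · rw [map_smul, hb, hev, map_smul, map_smul, ← hb, b.repr_self]
        simp [mul_comm]
      · intro c _ hc
        rw [map_smul, hb, hev, map_smul, map_smul, ← hb, b.repr_self]
        simp [hc]
      · intro h; exact absurd (mem_univ _) h
    rw [hm, map_smul, Finsupp.smul_apply, smul_eq_mul] at h1
    exact (hS.gen (mul_right_cancel₀ ha h1)).symm
  have heig : ∀ ν : Fin (N + 1) → ℤ, Module.End.eigenspace Θ (tw N s ν)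
      = Submodule.span ℂ (Set.range fun a : {a : EX N l // μ - wtE N a.1 = ν} => v a.1) := by
    intro ν
    apply le_antisymm
    · intro m hm
      rw [← b.sum_repr m]
      refine Submodule.sum_mem _ fun a _ => ?_
      by_cases h : b.repr m a = 0
      · rw [h, zero_smul]; exact Submodule.zero_mem _
      · rw [hb]
        exact Submodule.smul_mem _ _ (Submodule.subset_span ⟨⟨a, hcoef ν m hm a h⟩, rfl⟩)
    · rw [Submodule.span_le]
      rintro _ ⟨⟨a, ha⟩, rfl⟩
      rw [SetLike.mem_coe, Module.End.mem_eigenspace_iff]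
      simp only []
      rw [hev, ha]
  refine ⟨Θ, ⟨hfd, ?_, ?_, ?_⟩, hΘ, ?_⟩
  · intro a m
    obtain ⟨x, rfl⟩ := mk_surj _ m
    rw [smul_smul, hΘ, hΘ, map_mul, mul_smul]
    exact smul_comm (tw N s μ) (tor N l q hl s a) (tor N l q hl s x • zgen q (rd l μ))
  · rw [eq_top_iff, ← hsp, Submodule.span_le]
    rintro _ ⟨a, rfl⟩
    have : v a ∈ Module.End.eigenspace Θ (tw N s (μ - wtE N a.1)) := by
      rw [Module.End.mem_eigenspace_iff]; exact hev a
    exact Submodule.mem_iSup_of_mem _ this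
  · intro ν m hm j
    rw [heig ν] at hm
    induction hm using Submodule.span_induction with
    | mem x hx =>
      obtain ⟨⟨a, ha⟩, rfl⟩ := hx
      simp only []
      rw [hK, ha]
    | zero => rw [smul_zero, smul_zero]
    | add x y _ _ hx hy => rw [smul_add, hx, hy, smul_add]
    | smul c x _ hx => rw [smul_comm, hx, smul_comm]
  · intro ν
    unfold dmM
    rw [heig ν]
    have hli' : LinearIndependent ℂ (fun a : {a : EX N l // μ - wtE N a.1 = ν} => v a.1) :=
      hli.comp _ Subtype.val_injective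
    rw [finrank_span_eq_card hli', Fintype.card_subtype]

end

end Pool.Agent.Helper45.SQ
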